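import Pool.Agent.Helper53.PT.GoalsB

/-! # Concave majorants from step functions (packet PT-FMG) -/

namespace Pool.Agent.Helper67.PT

open MeasureTheory Set Filter Topology
open Pool.Agent.Helper53.PT

/-- The index of the cell of `s`. -/
noncomputable def idx (K : ℕ) (x : ℕ → ℝ) (s : ℝ) : ℕ :=
  @Nat.findGreatest (fun k => x k ≤ s) (Classical.decPred _) (K - 1)

/-- The step function, continued by a power. -/
noncomputable def stp (K : ℕ) (x U : ℕ → ℝ) (g c : ℝ) (s : ℝ) : ℝ :=
  if s < 64 then U (idx K x s) else c * (64 / s) ^ (g + 1)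

theorem idx_le (K : ℕ) (x : ℕ → ℝ) (s : ℝ) : idx K x s ≤ K - 1 := Nat.findGreatest_le _

theorem idx_mono (K : ℕ) (x : ℕ → ℝ) {s t : ℝ} (h : s ≤ t) : idx K x s ≤ idx K x t := by
  unfold idx
  exact Nat.findGreatest_mono (fun k hk => le_trans hk h) le_rfl

theorem x_mono {K : ℕ} {x : ℕ → ℝ} (hx : ∀ k < K, x k < x (k + 1)) :
    ∀ {i j : ℕ}, i ≤ j → j ≤ K → x i ≤ x j := by
  intro i j hij
  induction hij with
  | refl => intro _; exact le_rfl
  | step h ih =>
    intro hj
    exact (ih (by omega)).trans (hx _ (by omega)).le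

theorem idx_eq {K : ℕ} {x : ℕ → ℝ} (hx : ∀ k < K, x k < x (k + 1)) {k : ℕ} (hk : k < K) {s : ℝ}
    (h1 : x k ≤ s) (h2 : s < x (k + 1)) : idx K x s = k := by
  unfold idx
  rw [Nat.findGreatest_eq_iff]
  refine ⟨by omega, fun _ => h1, fun n hn hnK hxn => ?_⟩
  have := x_mono hx (show k + 1 ≤ n by omega) (by omega)
  linarith

theorem U_anti {K : ℕ} {U : ℕ → ℝ} (hU : ∀ k, k + 1 < K → U (k + 1) ≤ U k) :
    ∀ {i j : ℕ}, i ≤ j → j + 1 ≤ K → U j ≤ U i := by
  intro i j hij
  induction hij with
  | refl => intro _; exact le_rfl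
  | step h ih =>
    intro hj
    exact (hU _ (by omega)).trans (ih (by omega))

section

variable {K : ℕ} {x U J : ℕ → ℝ} {g c : ℝ}

theorem stp_anti (hg : 0 < g) (hK1 : 1 ≤ K)
    (hU : ∀ k, k + 1 < K → U (k + 1) ≤ U k) (hc : c ≤ U (K - 1)) (hc0 : 0 ≤ c) :
    AntitoneOn (stp K x U g c) (Ici 0) := by
  intro s hs t ht hst
  have hs0 : (0 : ℝ) ≤ s := hs
  have ht0 : (0 : ℝ) ≤ t := ht
  unfold stp
  by_cases ht1 : t < 64
  · have hs1 : s < 64 := lt_of_le_of_lt hst ht1
    rw [if_pos ht1, if_pos hs1]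
    have := idx_le K x t
    exact U_anti hU (idx_mono K x hst) (by omega)
  · rw [if_neg ht1]
    push Not at ht1
    by_cases hs1 : s < 64
    · rw [if_pos hs1]
      have h1 : (64 / t) ^ (g + 1) ≤ 1 := by
        apply Real.rpow_le_one (by positivity) _ (by linarith)
        rw [div_le_one (by linarith)]
        exact ht1
      have h2 : c * (64 / t) ^ (g + 1) ≤ c := by nlinarith
      have := idx_le K x s
      exact h2.trans (hc.trans (U_anti hU this (by omega)))
    · rw [if_neg hs1]
      push Not at hs1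
      refine mul_le_mul_of_nonneg_left ?_ hc0
      refine Real.rpow_le_rpow (by positivity) ?_ (by linarith)
      exact div_le_div_of_nonneg_left (by norm_num) (by linarith) hst

theorem stp_int (h : AntitoneOn (stp K x U g c) (Ici 0)) {a b : ℝ} (ha : 0 ≤ a) (hb : 0 ≤ b) :
    IntervalIntegrable (stp K x U g c) volume a b := by
  refine AntitoneOn.intervalIntegrable (h.mono ?_)
  intro s hs
  rw [mem_uIcc] at hs
  rcases hs with hs | hs
  · exact ha.trans hs.1
  · exact hb.trans hs.1

/-- The majorant. -/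
theorem step (hg : 0 < g) (hx0 : x 0 = 0) (hx : ∀ k < K, x k < x (k + 1)) (hK : x K = 64)
    (hK1 : 1 ≤ K) (hU : ∀ k, k + 1 < K → U (k + 1) ≤ U k) (hc : c ≤ U (K - 1)) (hc0 : 0 ≤ c)
    (hJ0 : J 0 = 0) (hJ : ∀ k < K, J (k + 1) = J k + (x (k + 1) - x k) * U k) :
    ∃ I : ℝ → ℝ, I 0 = 0 ∧ ConcaveOn ℝ (Ici 0) I ∧ MonotoneOn I (Ici 0) ∧
      (∀ y, 0 ≤ y → I y ≤ J K + 64 * c / g) ∧
      (∀ k < K, ∀ y, x k ≤ y → y ≤ x (k + 1) → I y = J k + (y - x k) * U k) ∧
      ∀ f f' : ℝ → ℝ, (∀ s, HasDerivAt f (f' s) s) → Continuous f' →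
        (∀ k < K, ∀ y, x k ≤ y → |f' y| ≤ U k) →
        (∀ s, 64 ≤ s → |f' s| ≤ c * (64 / s) ^ (g + 1)) →
        ∀ s t, 0 ≤ t → t ≤ s → |f t - f s| ≤ I s - I t := by
  set u := stp K x U g c with hu
  have hanti : AntitoneOn u (Ici 0) := stp_anti hg hK1 hU hc hc0
  have hint : ∀ {a b : ℝ}, 0 ≤ a → 0 ≤ b → IntervalIntegrable u volume a b :=
    fun ha hb => stp_int hanti ha hb
  have hUK : 0 ≤ U (K - 1) := hc0.trans hc
  have hU0 : ∀ k < K, 0 ≤ U k := fun k hk =>
    hUK.trans (U_anti hU (show k ≤ K - 1 by omega) (by omega))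
  have hu0 : ∀ s, 0 ≤ s → 0 ≤ u s := by
    intro s hs
    rw [hu]
    unfold stp
    split_ifs with h
    · have := idx_le K x s
      exact hU0 _ (by omega)
    · push Not at h
      have : (0 : ℝ) ≤ 64 / s := by positivity
      have := Real.rpow_nonneg this (g + 1)
      positivity
  set I : ℝ → ℝ := fun y => ∫ s in (0 : ℝ)..y, u s with hI
  have hdiff : ∀ {a b : ℝ}, 0 ≤ a → 0 ≤ b → I b - I a = ∫ s in a..b, u s := by
    intro a b ha hb
    exact intervalIntegral.integral_interval_sub_left (hint le_rfl hb) (hint le_rfl ha)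
  have hlow : ∀ {a b : ℝ}, 0 ≤ a → a ≤ b → u b * (b - a) ≤ I b - I a := by
    intro a b ha hab
    rw [hdiff ha (ha.trans hab)]
    have h1 : ∫ _ in a..b, u b ≤ ∫ s in a..b, u s := by
      apply intervalIntegral.integral_mono_on hab (intervalIntegrable_const)
        (hint ha (ha.trans hab))
      intro s hs
      exact hanti (ha.trans hs.1) (ha.trans hab) hs.2
    rw [intervalIntegral.integral_const, smul_eq_mul] at h1
    linarith
  have hup : ∀ {a b : ℝ}, 0 ≤ a → a ≤ b → I b - I a ≤ u a * (b - a) := by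
    intro a b ha hab
    rw [hdiff ha (ha.trans hab)]
    have h1 : ∫ s in a..b, u s ≤ ∫ _ in a..b, u a := by
      apply intervalIntegral.integral_mono_on hab (hint ha (ha.trans hab))
        (intervalIntegrable_const)
      intro s hs
      exact hanti ha (ha.trans hs.1) hs.1
    rw [intervalIntegral.integral_const, smul_eq_mul] at h1
    linarith
  have hmono : MonotoneOn I (Ici 0) := by
    intro a ha b hb hab
    have ha0 : (0 : ℝ) ≤ a := ha
    have hb0 : (0 : ℝ) ≤ b := hb
    have h1 := hlow ha0 hab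
    have h2 := mul_nonneg (hu0 b hb0) (sub_nonneg.2 hab)
    linarith
  have hcell : ∀ k < K, ∀ y, x k ≤ y → y ≤ x (k + 1) → I y - I (x k) = (y - x k) * U k := by
    intro k hk y h1 h2
    have hxk : 0 ≤ x k := by
      rw [← hx0]
      exact x_mono hx (Nat.zero_le k) hk.le
    rw [hdiff hxk (hxk.trans h1)]
    have h3 : ∫ s in x k..y, u s = ∫ _ in x k..y, U k := by
      apply intervalIntegral.integral_congr_ae
      have hne : ∀ᵐ s : ℝ, s ≠ x (k + 1) := by
        have : ({x (k + 1)}ᶜ : Set ℝ) ∈ ae volume := by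
          rw [mem_ae_iff, compl_compl]
          exact Real.volume_singleton
        exact this
      filter_upwards [hne] with s hs hsm
      rw [uIoc_of_le h1] at hsm
      have h4 : s < x (k + 1) := lt_of_le_of_ne (hsm.2.trans h2) hs
      have h5 : x (k + 1) ≤ 64 := by
        rw [← hK]
        exact x_mono hx (show k + 1 ≤ K by omega) le_rfl
      rw [hu]
      unfold stp
      rw [if_pos (by linarith), idx_eq hx hk hsm.1.le h4]
    rw [h3, intervalIntegral.integral_const, smul_eq_mul]
  have hI0 : I 0 = 0 := intervalIntegral.integral_same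
  have hIx : ∀ k ≤ K, I (x k) = J k := by
    intro k
    induction k with
    | zero => intro _; rw [hx0, hI0, hJ0]
    | succ k ih =>
      intro hk
      have h1 := hcell k (by omega) (x (k + 1)) (hx k (by omega)).le le_rfl
      rw [ih (by omega)] at h1
      rw [hJ k (by omega)]
      linarith
  have hI64 : I 64 = J K := by rw [← hK]; exact hIx K le_rfl
  have hcg : 0 ≤ 64 * c / g := by positivity
  refine ⟨I, hI0, ?_, hmono, ?_, ?_, ?_⟩
  · apply concaveOn_of_slope_anti_adjacent (convex_Ici 0)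
    intro a b d ha hd hab hbd
    have ha0 : (0 : ℝ) ≤ a := ha
    have h1 := hlow ha0 hab.le
    have h2 := hup (ha0.trans hab.le) hbd.le
    have h3 : (I d - I b) / (d - b) ≤ u b := by
      rw [div_le_iff₀ (by linarith)]
      exact h2
    have h4 : u b ≤ (I b - I a) / (b - a) := by
      rw [le_div_iff₀ (by linarith)]
      exact h1
    exact h3.trans h4
  · intro y hy
    by_cases hy1 : y ≤ 64
    · have := hmono (show y ∈ Ici (0 : ℝ) from hy) (show (64 : ℝ) ∈ Ici (0 : ℝ) by
        rw [mem_Ici]; norm_num) hy1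
      rw [hI64] at this
      linarith
    · push Not at hy1
      have h1 := hdiff (show (0 : ℝ) ≤ 64 by norm_num) hy
      have h2 : ∫ s in (64 : ℝ)..y, u s = ∫ s in (64 : ℝ)..y, c * 64 ^ (g + 1) * s ^ (-(g + 1)) := by
        apply intervalIntegral.integral_congr
        intro s hs
        rw [uIcc_of_le hy1.le] at hs
        have hs64 : (64 : ℝ) ≤ s := hs.1
        show u s = c * 64 ^ (g + 1) * s ^ (-(g + 1))
        rw [hu]
        unfold stp
        rw [if_neg (by linarith), Real.div_rpow (by norm_num) (by linarith),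
          Real.rpow_neg (by linarith)]
        ring
      have h3 : ∫ s in (64 : ℝ)..y, c * 64 ^ (g + 1) * s ^ (-(g + 1)) =
          c * 64 ^ (g + 1) * ((y ^ (-g) - 64 ^ (-g)) / (-g)) := by
        rw [intervalIntegral.integral_const_mul, integral_rpow]
        · have : -(g + 1) + 1 = -g := by ring
          rw [this]
        · right
          refine ⟨by linarith, ?_⟩
          rw [uIcc_of_le hy1.le]
          intro h
          have := h.1
          linarith
      have h4 : (y ^ (-g) - (64 : ℝ) ^ (-g)) / (-g) ≤ 64 ^ (-g) / g := by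
        have h5 : 0 ≤ y ^ (-g) := Real.rpow_nonneg hy _
        rw [div_neg, ← neg_div, neg_sub]
        exact div_le_div_of_nonneg_right (by linarith) hg.le
      have h6 : c * 64 ^ (g + 1) * ((y ^ (-g) - (64 : ℝ) ^ (-g)) / (-g)) ≤ 64 * c / g := by
        have h7 : (64 : ℝ) ^ (g + 1) * 64 ^ (-g) = 64 := by
          rw [← Real.rpow_add (by norm_num)]
          have : g + 1 + -g = 1 := by ring
          rw [this, Real.rpow_one]
        calc c * 64 ^ (g + 1) * ((y ^ (-g) - (64 : ℝ) ^ (-g)) / (-g))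
            ≤ c * 64 ^ (g + 1) * (64 ^ (-g) / g) := by
              apply mul_le_mul_of_nonneg_left h4
              have : (0 : ℝ) ≤ 64 ^ (g + 1) := Real.rpow_nonneg (by norm_num) _
              positivity
          _ = c * ((64 : ℝ) ^ (g + 1) * 64 ^ (-g)) / g := by ring
          _ = 64 * c / g := by rw [h7]; ring
      rw [h2, h3] at h1
      linarith
  · intro k hk y h1 h2
    have := hcell k hk y h1 h2
    rw [hIx k hk.le] at this
    linarith
  · intro f f' hf hf' hb1 hb2 s t ht hts
    have hs : 0 ≤ s := ht.trans hts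
    have hle : ∀ r, 0 ≤ r → |f' r| ≤ u r := by
      intro r hr
      rw [hu]
      unfold stp
      split_ifs with h
      · have h1 := idx_le K x r
        refine hb1 _ (by omega) r ?_
        have h2 : @Nat.findGreatest (fun k => x k ≤ r) (Classical.decPred _) (K - 1) =
          idx K x r := rfl
        by_cases h0 : idx K x r = 0
        · rw [h0, hx0]; exact hr
        · exact (Nat.findGreatest_eq_iff.1 h2).2.1 h0
      · push Not at h
        exact hb2 r h
    have h1 : ∫ r in t..s, f' r = f s - f t :=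
      intervalIntegral.integral_eq_sub_of_hasDerivAt (fun r _ => hf r)
        (hf'.intervalIntegrable _ _)
    rw [abs_sub_comm, ← h1, hdiff ht hs]
    calc |∫ r in t..s, f' r| ≤ ∫ r in t..s, |f' r| := by
          have := intervalIntegral.norm_integral_le_integral_norm (f := f') hts (μ := volume)
          simpa only [Real.norm_eq_abs] using this
      _ ≤ ∫ r in t..s, u r := by
          apply intervalIntegral.integral_mono_on hts (hf'.abs.intervalIntegrable _ _) (hint ht hs)
          intro r hr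
          exact hle r (ht.trans hr.1)

end

theorem gFMG : GFMG := by
  intro θ h0 h1 K x U1 U2 J1 J2 g c0 c1 c2 hFP hx0 hx hK hK1 hU hUa hc1 hc2 hc10 hc20 hJ10 hJ20 hJ
  have hg : 0 < g := by linarith [hFP.g0]
  obtain ⟨I1, a1, a2, a3, a4, a5, a6⟩ := step (K := K) (x := x) (U := U1) (J := J1) hg hx0 hx hK hK1
    (fun k hk => (hUa k hk).1) hc1 hc10 hJ10 (fun k hk => (hJ k hk).1)
  obtain ⟨I2, b1, b2, b3, b4, b5, b6⟩ := step (K := K) (x := x) (U := U2) (J := J2) hg hx0 hx hK hK1
    (fun k hk => (hUa k hk).2) hc2 hc20 hJ20 (fun k hk => (hJ k hk).2)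
  refine ⟨I1, I2, ⟨a1, b1, a2, b2, a3, b3, a4, b4, ?_, ?_⟩, fun k hk y h1 h2 =>
    ⟨a5 k hk y h1 h2, b5 k hk y h1 h2⟩⟩
  · intro s t ht hts
    have h2 := a6 (fun s => -2 * f0 θ s) (f1 θ)
      (fun s => by
        have := (hasDerivAt_f0 h0 h1 s).const_mul (-2)
        have e : -2 * (-(f1 θ s) / 2) = f1 θ s := by ring
        rwa [e] at this)
      (continuous_f1 h0 h1) (fun k hk y hy => (hU k hk y hy).1) hFP.p1 s t ht hts
    have h3 : (-2 * f0 θ t - -2 * f0 θ s) = -2 * (f0 θ t - f0 θ s) := by ring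
    simp only [h3] at h2
    rw [abs_mul, abs_neg, abs_two] at h2
    linarith
  · intro s t ht hts
    exact b6 (f1 θ) (f2 θ) (hasDerivAt_f1 h0 h1) (continuous_f2 h0 h1)
      (fun k hk y hy => (hU k hk y hy).2) hFP.p2 s t ht hts

end Pool.Agent.Helper67.PT
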